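import Pool.Agent.W591.TL.Sm
import Pool.Agent.H373R2.T7.Fund

/-! TL-LAW: the joint law of the `(w, y]`-parts of linear forms. -/

set_option autoImplicit false

namespace Pool.Agent.W591.TL

open Finset Pool.Agent.W208.TL Pool.Agent.H373R2.T7

theorem sol_exists (A c : ℤ) (n : ℕ) (hn : 0 < n) (h : IsCoprime A (n : ℤ)) :
    ∃ ρ : ℕ, ρ < n ∧ ∀ z : ℤ, (n : ℤ) ∣ A * z + c ↔ (n : ℤ) ∣ z - ρ := by
  obtain ⟨u, v, huv⟩ := h
  have hn' : (0 : ℤ) < n := by exact_mod_cast hn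
  have h0 : 0 ≤ (-c * u) % (n : ℤ) := Int.emod_nonneg _ hn'.ne'
  have h1 : (-c * u) % (n : ℤ) < n := Int.emod_lt_of_pos _ hn'
  refine ⟨((-c * u) % (n : ℤ)).toNat, by omega, fun z => ?_⟩
  have h2 : ((((-c * u) % (n : ℤ)).toNat : ℕ) : ℤ) = (-c * u) % (n : ℤ) := Int.toNat_of_nonneg h0
  rw [h2]
  have h3 : (n : ℤ) ∣ (-c * u) - (-c * u) % (n : ℤ) := Int.dvd_self_sub_emod
  have h4 : (n : ℤ) ∣ z - (-c * u) % (n : ℤ) ↔ (n : ℤ) ∣ z + c * u := by
    have : z - (-c * u) % (n : ℤ) = (z + c * u) + ((-c * u) - (-c * u) % (n : ℤ)) := by ring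
    rw [this]
    exact dvd_add_left h3
  rw [h4]
  have h5 : A * z + c = A * (z + c * u) + n * (c * v) := by linear_combination (-c) * huv
  rw [h5]
  constructor
  · intro h
    have h6 : (n : ℤ) ∣ A * (z + c * u) := (dvd_add_left (dvd_mul_right _ _)).1 h
    exact (IsCoprime.symm ⟨u, v, huv⟩ : IsCoprime (n : ℤ) A).dvd_of_dvd_mul_left h6
  · intro h
    exact dvd_add (Dvd.dvd.mul_left h _) (dvd_mul_right _ _)

/-- the Chinese remainder theorem with linear forms -/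
theorem crt {J : ℕ} (Q b : ℕ) (hQ : 1 ≤ Q) (α : Fin J → ℕ) (β : Fin J → ℤ) (d : Fin J → ℕ)
    (hd : ∀ i, d i ≠ 0) (hcop : ∀ i j, i ≠ j → Nat.Coprime (d i) (d j))
    (hα : ∀ i, Nat.Coprime (α i) (d i)) (hQd : ∀ i, Nat.Coprime Q (d i)) :
    ∃ r : ℕ, 1 ≤ r ∧ r ≤ Q * ∏ i, d i ∧ (∀ i, (d i : ℤ) ∣ (α i : ℤ) * r + β i) ∧
    ∀ m : ℕ, (m ≡ b [MOD Q] ∧ ∀ i, (d i : ℤ) ∣ (α i : ℤ) * m + β i) ↔
      m ≡ r [MOD Q * ∏ i, d i] := by
  have hα' : ∀ i, IsCoprime (α i : ℤ) (d i : ℤ) := fun i => (hα i).isCoprime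
  choose c hc1 hc2 using fun i =>
    sol_exists (α i) (β i) (d i) (Nat.pos_of_ne_zero (hd i)) (hα' i)
  set D := ∏ i, d i with hD
  set R := Q * D with hR
  have hD0 : D ≠ 0 := prod_ne_zero_iff.2 fun i _ => hd i
  have hR0 : R ≠ 0 := mul_ne_zero (by omega) hD0
  -- the remainder
  obtain ⟨k, hk⟩ := Nat.chineseRemainderOfFinset (ι := Option (Fin J))
    (fun o => o.elim b c) (fun o => o.elim Q d) univ
    (by
      intro o _
      cases o with
      | none => simp only [Option.elim_none]; omega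
      | some i => exact hd i)
    (by
      intro o _ o' _ hne
      cases o with
      | none =>
        cases o' with
        | none => exact absurd rfl hne
        | some i => exact hQd i
      | some j =>
        cases o' with
        | none => exact (hQd j).symm
        | some i => exact hcop j i (fun h => hne (by rw [h])))
  have hkQ : k ≡ b [MOD Q] := hk none (mem_univ _)
  have hkd : ∀ i, k ≡ c i [MOD d i] := fun i => hk (some i) (mem_univ _)
  obtain ⟨r, hr1, hrR, hrk⟩ : ∃ r, 1 ≤ r ∧ r ≤ R ∧ r ≡ k [MOD R] := by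
    by_cases h0 : k % R = 0
    · refine ⟨R, Nat.one_le_iff_ne_zero.2 hR0, le_rfl, ?_⟩
      unfold Nat.ModEq
      rw [h0, Nat.mod_self]
    · exact ⟨k % R, Nat.one_le_iff_ne_zero.2 h0, (Nat.mod_lt _ (Nat.pos_of_ne_zero hR0)).le,
        Nat.mod_modEq k R⟩
  have hdD : ∀ i, d i ∣ R := fun i => Dvd.dvd.mul_left (dvd_prod_of_mem d (mem_univ i)) _
  have hrQ : r ≡ b [MOD Q] := (hrk.of_dvd (dvd_mul_right _ _)).trans hkQ
  have hrd : ∀ i, (d i : ℤ) ∣ (α i : ℤ) * r + β i := by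
    intro i
    rw [hc2 i]
    have h1 : r ≡ c i [MOD d i] := (hrk.of_dvd (hdD i)).trans (hkd i)
    exact (Nat.modEq_iff_dvd.1 h1.symm)
  refine ⟨r, hr1, hrR, hrd, fun m => ⟨?_, ?_⟩⟩
  · rintro ⟨h1, h2⟩
    apply Nat.ModEq.symm
    rw [Nat.modEq_iff_dvd]
    have h3 : (Q : ℤ) ∣ (m : ℤ) - r := Nat.modEq_iff_dvd.1 (hrQ.trans h1.symm)
    have h4 : ∀ i, (d i : ℤ) ∣ (m : ℤ) - r := by
      intro i
      have h5 : (d i : ℤ) ∣ (α i : ℤ) * ((m : ℤ) - r) := by
        have : (α i : ℤ) * ((m : ℤ) - r) = ((α i : ℤ) * m + β i) - ((α i : ℤ) * r + β i) := by ring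
        rw [this]
        exact dvd_sub (h2 i) (hrd i)
      exact (hα' i).symm.dvd_of_dvd_mul_left h5
    have h6 : (∏ i, (d i : ℤ)) ∣ (m : ℤ) - r := by
      refine Finset.prod_dvd_of_coprime (fun i _ j _ hne => ?_) (fun i _ => h4 i)
      exact (hcop i j hne).isCoprime
    have h7 : IsCoprime (Q : ℤ) (∏ i, (d i : ℤ)) :=
      IsCoprime.prod_right fun i _ => (hQd i).isCoprime
    have h8 := h7.mul_dvd h3 h6
    rw [hR, hD]
    push_cast
    exact h8
  · intro h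
    refine ⟨(h.of_dvd (dvd_mul_right _ _)).trans hrQ, fun i => ?_⟩
    have h1 : m ≡ r [MOD d i] := h.of_dvd (hdD i)
    have h2 : (d i : ℤ) ∣ (m : ℤ) - r := Nat.modEq_iff_dvd.1 h1.symm
    have : (α i : ℤ) * m + β i = ((α i : ℤ) * r + β i) + (α i : ℤ) * ((m : ℤ) - r) := by ring
    rw [this]
    exact dvd_add (hrd i) (Dvd.dvd.mul_left h2 _)

theorem param (R r X : ℕ) (hR : 1 ≤ R) (hr1 : 1 ≤ r) (hrR : r ≤ R) (p : ℕ → Prop)
    [DecidablePred p] :
    ((Ioc 0 X).filter (fun m => m ≡ r [MOD R] ∧ p m)).card =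
      ((Icc 1 ((X + R - r) / R)).filter (fun t => p (r + R * (t - 1)))).card := by
  symm
  refine card_bij (fun t _ => r + R * (t - 1)) ?_ ?_ ?_
  · intro t ht
    rw [mem_filter, mem_Icc, Nat.le_div_iff_mul_le hR] at ht
    obtain ⟨⟨h1, h2⟩, h3⟩ := ht
    rw [mem_filter, mem_Ioc]
    obtain ⟨s, rfl⟩ : ∃ s, t = s + 1 := ⟨t - 1, by omega⟩
    simp only [Nat.add_sub_cancel] at h3 ⊢
    refine ⟨⟨by omega, ?_⟩, ?_, h3⟩
    · have : (s + 1) * R = R * s + R := by ring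
      omega
    · unfold Nat.ModEq
      rw [Nat.add_mul_mod_self_left]
  · intro t ht t' ht' h
    rw [mem_filter, mem_Icc] at ht ht'
    have h1 : R * (t - 1) = R * (t' - 1) := by omega
    have h2 := Nat.eq_of_mul_eq_mul_left (by omega) h1
    omega
  · intro m hm
    rw [mem_filter, mem_Ioc] at hm
    obtain ⟨⟨h1, h2⟩, h3, h4⟩ := hm
    have hrm : r ≤ m := by
      by_contra hc
      have hc' : m ≤ r := by omega
      have h5 := (Nat.modEq_iff_dvd' hc').1 h3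
      have h6 := Nat.le_of_dvd (by omega) h5
      omega
    obtain ⟨s, hs⟩ := (Nat.modEq_iff_dvd' hrm).1 h3.symm
    have hm' : m = r + R * s := by omega
    refine ⟨s + 1, ?_, ?_⟩
    · rw [mem_filter, mem_Icc, Nat.le_div_iff_mul_le hR]
      simp only [Nat.add_sub_cancel]
      rw [← hm']
      have : (s + 1) * R = R * s + R := by ring
      exact ⟨⟨by omega, by omega⟩, h4⟩
    · simp only [Nat.add_sub_cancel]
      omega

theorem tbound (R r X : ℕ) (hR : 1 ≤ R) (hrR : r ≤ R) :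
    |(((X + R - r) / R : ℕ) : ℝ) - (X : ℝ) / R| ≤ 1 := by
  set T := (X + R - r) / R with hT
  have hRr : (0 : ℝ) < R := by exact_mod_cast hR
  have h1 : T * R ≤ X + R - r := Nat.div_mul_le_self _ _
  have h2 : X + R - r < (T + 1) * R := by
    rw [add_mul, one_mul]
    have := Nat.lt_div_mul_add (a := X + R - r) (b := R) hR
    exact this
  have h3 : (T : ℝ) * R ≤ X + R := by
    have : T * R ≤ X + R := by omega
    exact_mod_cast this
  have h4 : (X : ℝ) < (T + 1) * R := by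
    have : X < (T + 1) * R := by omega
    exact_mod_cast this
  rw [abs_le]
  constructor
  · have : (X : ℝ) / R ≤ T + 1 := by rw [div_le_iff₀ hRr]; exact h4.le
    linarith
  · have : (T : ℝ) ≤ X / R + 1 := by
      rw [← sub_le_iff_le_add, le_div_iff₀ hRr]
      linarith
    linarith

/-- number of classes -/
theorem nuB_one (Q : ℕ → ℕ → Prop) (p : ℕ) (ρ : ℕ) (hρ : ρ < p) (h : ∀ r, r < p → (Q p r ↔ r = ρ)) :
    nuB Q p = 1 := by
  classical
  unfold nuB
  have : (range p).filter (fun r => Q p r) = {ρ} := by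
    ext r
    rw [mem_filter, mem_range, mem_singleton]
    constructor
    · rintro ⟨h1, h2⟩
      exact (h r h1).1 h2
    · rintro rfl
      exact ⟨hρ, (h r hρ).2 rfl⟩
  rw [this, card_singleton]

theorem nuB_J {J : ℕ} (Q : ℕ → ℕ → Prop) (p : ℕ) (ρ : Fin J → ℕ) (hρ : ∀ i, ρ i < p)
    (hinj : Function.Injective ρ) (h : ∀ r, r < p → (Q p r ↔ ∃ i, r = ρ i)) :
    nuB Q p = J := by
  classical
  unfold nuB
  have : (range p).filter (fun r => Q p r) = univ.image ρ := by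
    ext r
    rw [mem_filter, mem_range, mem_image]
    constructor
    · rintro ⟨h1, h2⟩
      obtain ⟨i, hi⟩ := (h r h1).1 h2
      exact ⟨i, mem_univ _, hi.symm⟩
    · rintro ⟨i, -, rfl⟩
      exact ⟨hρ i, (h _ (hρ i)).2 ⟨i, rfl⟩⟩
  rw [this, card_image_of_injective _ hinj, card_univ, Fintype.card_fin]

theorem nuB_zero (Q : ℕ → ℕ → Prop) (p : ℕ) (h : ∀ r, ¬ Q p r) : nuB Q p = 0 := by
  classical
  unfold nuB
  rw [card_eq_zero, filter_eq_empty_iff]
  exact fun r _ => h r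

open Classical in
/-- the main case -/
theorem law_main {J K x0 : ℕ} {ε : ℝ} (hε : 0 < ε) (hε1 : ε ≤ 1)
    (hfund : ∀ x y : ℕ, x0 ≤ y → y ^ K ≤ x →
      ∀ Q : ℕ → ℕ → Prop, PerB Q J → ∀ X : ℕ,
      |((((Icc 1 X).filter (fun n : ℕ => ∀ p ∈ pz y, ¬ Q p n)).card : ℕ) : ℝ) -
      X * ∏ p ∈ pz y, (1 - (nuB Q p : ℝ) / p)| ≤
        ε * (X * ∏ p ∈ pz y, (1 - (nuB Q p : ℝ) / p)) + √(x : ℝ))
    (hJ : 1 ≤ J) (α : Fin J → ℕ) (β : Fin J → ℤ) (w : ℕ) (hI : Indep w α β)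
    (Q b : ℕ) (hQ : 1 ≤ Q) (hQw : ∀ l : ℕ, l.Prime → l ∣ Q → l ≤ w) (y X : ℕ) (hy : x0 ≤ y)
    (d : Fin J → ℕ) (h1 : ∀ i, sm w y (d i) = d i)
    (h2 : ∀ i j, i ≠ j → Nat.Coprime (d i) (d j)) :
    |(((Ioc 0 X).filter (fun m => m ≡ b [MOD Q] ∧ ∀ i, sm w y (lf (α i) (β i) m) = d i)).card : ℝ) -
      X / Q * ((∏ l ∈ PP w y, (1 - (if ∃ i, l ∣ d i then (1 : ℝ) else (J : ℝ)) / l)) /
        ∏ i, (d i : ℝ))| ≤ ε * (X / Q * ((∏ l ∈ PP w y, (1 - (if ∃ i, l ∣ d i then (1 : ℝ)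
        else (J : ℝ)) / l)) / ∏ i, (d i : ℝ))) + (y : ℝ) ^ K + J + 3 := by
  have hd : ∀ i, d i ≠ 0 := fun i => by rw [← h1 i]; exact sm_ne_zero _ _ _
  have hpd : ∀ i l, l.Prime → l ∣ d i → l ∈ PP w y := by
    intro i l hl hdv
    rw [← h1 i] at hdv
    exact (prime_dvd_sm hl hdv).1
  have hpw : ∀ i l, l.Prime → l ∣ d i → w < l := fun i l hl hdv =>
    (mem_PP.1 (hpd i l hl hdv)).1.1
  have hα : ∀ i, Nat.Coprime (α i) (d i) := by
    intro i
    refine Nat.Coprime.symm (Nat.coprime_of_dvd fun l hl hdv => ?_)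
    exact (hI.2 l hl (hpw i l hl hdv)).1 i
  have hQd : ∀ i, Nat.Coprime Q (d i) := by
    intro i
    refine Nat.coprime_of_dvd fun l hl hdv hdv' => ?_
    have := hQw l hl hdv
    have := hpw i l hl hdv'
    omega
  obtain ⟨r, hr1, hrR, hrd, hiff⟩ := crt Q b hQ α β d hd h2 hα hQd
  set D := ∏ i, d i with hD
  set R := Q * D with hR
  have hD0 : D ≠ 0 := prod_ne_zero_iff.2 fun i _ => hd i
  have hR1 : 1 ≤ R := Nat.one_le_iff_ne_zero.2 (mul_ne_zero (by omega) hD0)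
  -- the reduced forms
  choose e he using hrd
  have hex : ∀ i, ∃ D' : ℕ, R = d i * D' := fun i =>
    (Dvd.dvd.mul_left (dvd_prod_of_mem d (mem_univ i)) _ : d i ∣ Q * D)
  choose D' hD' using hex
  set lt : Fin J → ℤ → ℤ := fun i z => (α i : ℤ) * D' i * (z - 1) + e i with hlt
  have hid : ∀ i (z : ℤ), (d i : ℤ) * lt i z = (α i : ℤ) * (r + R * (z - 1)) + β i := by
    intro i z
    have h3 : (R : ℤ) = d i * D' i := by exact_mod_cast hD' i
    simp only [hlt]
    rw [h3]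
    linear_combination -(he i)
  have hnotboth : ∀ l : ℕ, l.Prime → w < l → ∀ i j, i ≠ j → ∀ z : ℤ,
      (l : ℤ) ∣ (d i : ℤ) * lt i z → (l : ℤ) ∣ (d j : ℤ) * lt j z → False := by
    intro l hl hw i j hij z hi hj
    apply (hI.2 l hl hw).2 i j hij
    have : (α i : ℤ) * β j - (α j : ℤ) * β i = (α i : ℤ) * ((d j : ℤ) * lt j z) -
        (α j : ℤ) * ((d i : ℤ) * lt i z) := by
      rw [hid i z, hid j z]; ring
    rw [this]
    exact dvd_sub (Dvd.dvd.mul_left hj _) (Dvd.dvd.mul_left hi _)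
  set Q' : ℕ → ℕ → Prop := fun l n => l ∈ PP w y ∧ ∃ i, (l : ℤ) ∣ lt i n with hQ'
  have hcong : ∀ (l : ℕ) i (n n' : ℕ), n ≡ n' [MOD l] → ((l : ℤ) ∣ lt i n ↔ (l : ℤ) ∣ lt i n') := by
    intro l i n n' h
    have h3 : (l : ℤ) ∣ (n' : ℤ) - n := Nat.modEq_iff_dvd.1 h
    have h4 : lt i n' = lt i n + (α i : ℤ) * D' i * ((n' : ℤ) - n) := by
      simp only [hlt]; ring
    rw [h4]
    exact (dvd_add_left (Dvd.dvd.mul_left h3 _)).symm
  -- the number of classes
  have hDl : ∀ l : ℕ, l.Prime → w < l → ∀ i, (∀ j, j ≠ i → ¬ l ∣ d j) → ¬ l ∣ α i * D' i := by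
    intro l hl hw i hj hdv
    rcases hl.dvd_mul.1 hdv with h3 | h3
    · exact (hI.2 l hl hw).1 i h3
    · -- `D' i = Q * ∏_{j ≠ i} d j`
      have h4 : D' i = Q * ∏ j ∈ univ.erase i, d j := by
        have h5 : d i * D' i = d i * (Q * ∏ j ∈ univ.erase i, d j) := by
          rw [← hD' i, hR, hD, ← mul_prod_erase univ d (mem_univ i)]
          ring
        exact Nat.eq_of_mul_eq_mul_left (Nat.pos_of_ne_zero (hd i)) h5
      rw [h4] at h3
      rcases hl.dvd_mul.1 h3 with h5 | h5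
      · have := hQw l hl h5
        omega
      · rw [hl.prime.dvd_finsetProd_iff] at h5
        obtain ⟨j, hjm, hjd⟩ := h5
        exact hj j (ne_of_mem_erase hjm) hjd
  have hsol : ∀ l : ℕ, l.Prime → w < l → ∀ i, (∀ j, j ≠ i → ¬ l ∣ d j) →
      ∃ ρ, ρ < l ∧ ∀ n : ℕ, n < l → ((l : ℤ) ∣ lt i n ↔ n = ρ) := by
    intro l hl hw i hj
    have h3 : IsCoprime ((α i * D' i : ℕ) : ℤ) (l : ℤ) :=
      ((Nat.Prime.coprime_iff_not_dvd hl).2 (hDl l hl hw i hj)).symm.isCoprime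
    obtain ⟨ρ, hρ1, hρ2⟩ := sol_exists _ (e i - (α i : ℤ) * D' i) l hl.pos h3
    refine ⟨ρ, hρ1, fun n hn => ?_⟩
    have h4 : lt i n = ((α i * D' i : ℕ) : ℤ) * n + (e i - (α i : ℤ) * D' i) := by
      simp only [hlt]; push_cast; ring
    rw [h4, hρ2]
    constructor
    · intro h5
      have h6 : ρ ≡ n [MOD l] := (Nat.modEq_iff_dvd.2 h5)
      have := Nat.ModEq.eq_of_lt_of_lt h6 hρ1 hn
      exact this.symm
    · rintro rfl
      simp
  have hnu : ∀ l ∈ PP w y, (nuB Q' l : ℝ) = if ∃ i, l ∣ d i then (1 : ℝ) else (J : ℝ) := by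
    intro l hlP
    have hl := (mem_PP.1 hlP).2
    have hw := (mem_PP.1 hlP).1.1
    by_cases hex : ∃ i, l ∣ d i
    · rw [if_pos hex]
      obtain ⟨j, hj⟩ := hex
      have hjo : ∀ i, i ≠ j → ¬ l ∣ d i := by
        intro i hne hdv
        have := Nat.dvd_gcd hdv hj
        rw [h2 i j hne] at this
        exact hl.one_lt.ne' (Nat.dvd_one.1 this)
      obtain ⟨ρ, hρ1, hρ2⟩ := hsol l hl hw j hjo
      rw [nuB_one Q' l ρ hρ1 ?_]
      · norm_num
      · intro n hn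
        constructor
        · rintro ⟨-, i, hi⟩
          have hij : i = j := by
            by_contra hne
            refine hnotboth l hl hw i j hne n (Dvd.dvd.mul_left hi _) ?_
            exact Dvd.dvd.mul_right (by exact_mod_cast hj) _
          subst hij
          exact (hρ2 n hn).1 hi
        · intro hn'
          exact ⟨hlP, j, (hρ2 n hn).2 hn'⟩
    · rw [if_neg hex]
      push Not at hex
      choose ρ hρ1 hρ2 using fun i => hsol l hl hw i (fun j _ => hex j)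
      rw [nuB_J Q' l ρ hρ1 ?_ ?_]
      · intro i j hij
        by_contra hne
        refine hnotboth l hl hw i j hne (ρ i) (Dvd.dvd.mul_left ((hρ2 i _ (hρ1 i)).2 rfl) _) ?_
        exact Dvd.dvd.mul_left ((hρ2 j _ (hρ1 i)).2 hij) _
      · intro n hn
        constructor
        · rintro ⟨-, i, hi⟩
          exact ⟨i, (hρ2 i n hn).1 hi⟩
        · rintro ⟨i, hi⟩
          exact ⟨hlP, i, (hρ2 i n hn).2 hi⟩
  have hnu0 : ∀ l, l ∉ PP w y → nuB Q' l = 0 := by
    intro l hl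
    exact nuB_zero Q' l fun n h3 => hl h3.1
  have hper : PerB Q' J := by
    refine ⟨fun l n => ?_, fun l hl => ?_⟩
    · simp only [hQ']
      refine and_congr_right fun _ => ?_
      refine exists_congr fun i => ?_
      exact hcong l i n (n % l) (Nat.mod_modEq n l).symm
    · by_cases hlP : l ∈ PP w y
      · have h3 := hnu l hlP
        have h4 : (nuB Q' l : ℝ) ≤ J := by
          rw [h3]
          split_ifs
          · exact_mod_cast hJ
          · exact le_rfl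
        exact_mod_cast h4
      · rw [hnu0 l hlP]; exact Nat.zero_le _
  have hPiEq : ∏ p ∈ pz y, (1 - (nuB Q' p : ℝ) / p) =
      ∏ l ∈ PP w y, (1 - (if ∃ i, l ∣ d i then (1 : ℝ) else (J : ℝ)) / l) := by
    have hsub : PP w y ⊆ pz y := by
      intro l hl
      rw [mem_pz]
      exact ⟨(mem_PP.1 hl).1.2, (mem_PP.1 hl).2⟩
    rw [← prod_subset hsub (f := fun p => (1 - (nuB Q' p : ℝ) / p))]
    · exact prod_congr rfl fun l hl => by rw [hnu l hl]
    · intro l _ hl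
      rw [hnu0 l hl]
      simp
  set Pi : ℝ := ∏ l ∈ PP w y, (1 - (if ∃ i, l ∣ d i then (1 : ℝ) else (J : ℝ)) / l) with hPi
  have hfac : ∀ p ∈ pz y, 0 ≤ 1 - (nuB Q' p : ℝ) / p ∧ 1 - (nuB Q' p : ℝ) / p ≤ 1 := by
    intro p hp
    have hp0 : (0 : ℝ) < p := by exact_mod_cast (mem_pz.1 hp).2.pos
    constructor
    · rw [sub_nonneg, div_le_one hp0]
      exact_mod_cast nuB_le Q' p
    · have : (0 : ℝ) ≤ (nuB Q' p : ℝ) / p := by positivity
      linarith
  have hPi0 : 0 ≤ Pi := by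
    rw [← hPiEq]
    exact prod_nonneg fun p hp => (hfac p hp).1
  have hPi1 : Pi ≤ 1 := by
    rw [← hPiEq]
    exact prod_le_one (fun p hp => (hfac p hp).1) (fun p hp => (hfac p hp).2)
  set T := (X + R - r) / R with hT
  have hf := hfund (y ^ K) y hy le_rfl Q' hper T
  rw [hPiEq] at hf
  -- comparison of the counts
  set S := (Ioc 0 X).filter (fun m => m ≡ b [MOD Q] ∧ ∀ i, sm w y (lf (α i) (β i) m) = d i) with hS
  set S1 := (Ioc 0 X).filter (fun m => m ≡ r [MOD R] ∧ ∀ i, sm w y (lf (α i) (β i) m) = d i)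
    with hS1
  have hSS1 : S = S1 := by
    rw [hS, hS1]
    ext m
    rw [mem_filter, mem_filter]
    refine and_congr_right fun _ => ?_
    constructor
    · rintro ⟨h3, h4⟩
      refine ⟨(hiff m).1 ⟨h3, fun i => ?_⟩, h4⟩
      by_cases h0 : lf (α i) (β i) m = 0
      · unfold lf at h0
        rw [Int.natAbs_eq_zero] at h0
        rw [h0]
        exact dvd_zero _
      · have h5 : d i ∣ lf (α i) (β i) m := by
          rw [← h4 i]
          exact sm_dvd _ _ _ h0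
        unfold lf at h5
        exact Int.natCast_dvd.2 h5
    · rintro ⟨h3, h4⟩
      exact ⟨((hiff m).2 h3).1, h4⟩
  have hS1c := param R r X hR1 hr1 hrR (fun m => ∀ i, sm w y (lf (α i) (β i) m) = d i)
  rw [← hS1, ← hT] at hS1c
  set S2 := (Icc 1 T).filter (fun t => ∀ i, sm w y (lf (α i) (β i) (r + R * (t - 1))) = d i)
    with hS2
  set S3 := (Icc 1 T).filter (fun t : ℕ => ∀ p ∈ pz y, ¬ Q' p t) with hS3
  set Z := (Icc 1 T).filter (fun t : ℕ => ∃ i, lt i t = 0) with hZ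
  have hlf : ∀ i (t : ℕ), 1 ≤ t → lf (α i) (β i) (r + R * (t - 1)) = d i * (lt i t).natAbs := by
    intro i t ht
    have h3 := hid i t
    unfold lf
    have h4 : ((α i : ℤ) * ((r + R * (t - 1) : ℕ) : ℤ) + β i) = (d i : ℤ) * lt i t := by
      rw [h3]
      push_cast [Nat.cast_sub ht]
      ring
    rw [h4, Int.natAbs_mul, Int.natAbs_natCast]
  have hnz : ∀ t : ℕ, 1 ≤ t → (∀ i, lt i t ≠ 0) →
      ((∀ i, sm w y (lf (α i) (β i) (r + R * (t - 1))) = d i) ↔ ∀ p ∈ pz y, ¬ Q' p t) := by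
    intro t ht hne
    have h3 : ∀ i, (sm w y (lf (α i) (β i) (r + R * (t - 1))) = d i) ↔
        ∀ l ∈ PP w y, ¬ (l : ℤ) ∣ lt i t := by
      intro i
      have hn : (lt i t).natAbs ≠ 0 := Int.natAbs_ne_zero.2 (hne i)
      rw [hlf i t ht, sm_mul _ _ _ _ (hd i) hn, h1 i]
      have h4 : d i * sm w y (lt i t).natAbs = d i ↔ sm w y (lt i t).natAbs = 1 := by
        constructor
        · intro h
          exact Nat.eq_of_mul_eq_mul_left (Nat.pos_of_ne_zero (hd i)) (by rw [h, mul_one])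
        · intro h
          rw [h, mul_one]
      rw [h4, sm_eq_one _ _ _ hn]
      refine forall_congr' fun l => forall_congr' fun _ => ?_
      rw [Int.natCast_dvd]
    constructor
    · rintro h p hp ⟨hpP, i, hi⟩
      exact (h3 i).1 (h i) p hpP hi
    · intro h i
      refine (h3 i).2 fun l hl hdv => ?_
      exact h l (mem_pz.2 ⟨(mem_PP.1 hl).1.2, (mem_PP.1 hl).2⟩) ⟨hl, i, hdv⟩
  have hZc : Z.card ≤ J := by
    have h3 : Z ⊆ univ.biUnion (fun i : Fin J => (Icc 1 T).filter (fun t : ℕ => lt i t = 0)) := by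
      intro t ht
      rw [hZ, mem_filter] at ht
      obtain ⟨i, hi⟩ := ht.2
      rw [mem_biUnion]
      exact ⟨i, mem_univ _, mem_filter.2 ⟨ht.1, hi⟩⟩
    have h4 : ∀ i ∈ (univ : Finset (Fin J)),
        ((Icc 1 T).filter (fun t : ℕ => lt i t = 0)).card ≤ 1 := by
      intro i _
      rw [card_le_one]
      intro t ht t' ht'
      rw [mem_filter] at ht ht'
      have h5 : (α i : ℤ) * D' i * ((t : ℤ) - t') = 0 := by
        have := ht.2
        have := ht'.2
        simp only [hlt] at *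
        linear_combination ht.2 - ht'.2
      have h6 : (α i : ℤ) ≠ 0 := by
        have := hI.1 i
        exact_mod_cast (by omega : α i ≠ 0)
      have h7 : (D' i : ℤ) ≠ 0 := by
        intro h0
        have h8 : D' i = 0 := by exact_mod_cast h0
        have h9 := hD' i
        rw [h8, mul_zero] at h9
        omega
      rcases mul_eq_zero.1 h5 with h8 | h8
      · exact absurd h8 (mul_ne_zero h6 h7)
      · omega
    calc Z.card ≤ _ := card_le_card h3
      _ ≤ ∑ i : Fin J, ((Icc 1 T).filter (fun t : ℕ => lt i t = 0)).card := card_biUnion_le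
      _ ≤ ∑ _i : Fin J, 1 := sum_le_sum h4
      _ = J := by simp
  have h23 : S2.card ≤ S3.card + Z.card := by
    have : S2 ⊆ S3 ∪ Z := by
      intro t ht
      rw [hS2, mem_filter] at ht
      rw [mem_union, hS3, hZ, mem_filter, mem_filter]
      by_cases hne : ∀ i, lt i t ≠ 0
      · exact Or.inl ⟨ht.1, (hnz t (mem_Icc.1 ht.1).1 hne).1 ht.2⟩
      · push Not at hne
        exact Or.inr ⟨ht.1, hne⟩
    exact (card_le_card this).trans (card_union_le _ _)
  have h32 : S3.card ≤ S2.card + Z.card := by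
    have : S3 ⊆ S2 ∪ Z := by
      intro t ht
      rw [hS3, mem_filter] at ht
      rw [mem_union, hS2, hZ, mem_filter, mem_filter]
      by_cases hne : ∀ i, lt i t ≠ 0
      · exact Or.inl ⟨ht.1, (hnz t (mem_Icc.1 ht.1).1 hne).2 ht.2⟩
      · push Not at hne
        exact Or.inr ⟨ht.1, hne⟩
    exact (card_le_card this).trans (card_union_le _ _)
  have hSc : |(S.card : ℝ) - (S3.card : ℝ)| ≤ J := by
    rw [hSS1, hS1c]
    have a1 : (S2.card : ℝ) ≤ S3.card + Z.card := by exact_mod_cast h23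
    have a2 : (S3.card : ℝ) ≤ S2.card + Z.card := by exact_mod_cast h32
    have a3 : (Z.card : ℝ) ≤ J := by exact_mod_cast hZc
    rw [abs_le]
    constructor <;> linarith
  have hTb := tbound R r X hR1 hrR
  rw [← hT] at hTb
  have hmainEq : (X : ℝ) / Q * (Pi / ∏ i, (d i : ℝ)) = (X : ℝ) / R * Pi := by
    have : (R : ℝ) = Q * ∏ i, (d i : ℝ) := by
      rw [hR, hD]; push_cast; ring
    rw [this]
    have hQ0 : (Q : ℝ) ≠ 0 := by exact_mod_cast (by omega : Q ≠ 0)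
    have hd0 : (∏ i, (d i : ℝ)) ≠ 0 := prod_ne_zero_iff.2 fun i _ => by exact_mod_cast hd i
    field_simp
  rw [hmainEq]
  have hf' : |(S3.card : ℝ) - T * Pi| ≤ ε * (T * Pi) + √((y ^ K : ℕ) : ℝ) := by
    have key : ∀ (i1 i2 : DecidablePred fun n : ℕ => ∀ p ∈ pz y, ¬ Q' p n),
        |((@Finset.filter ℕ _ i1 (Icc 1 T)).card : ℝ) - T * Pi| ≤
          ε * (T * Pi) + √((y ^ K : ℕ) : ℝ) →
        |((@Finset.filter ℕ _ i2 (Icc 1 T)).card : ℝ) - T * Pi| ≤
          ε * (T * Pi) + √((y ^ K : ℕ) : ℝ) := by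
      intro i1 i2 h
      rwa [Subsingleton.elim i1 i2] at h
    exact key _ _ hf
  have hsq : √((y ^ K : ℕ) : ℝ) ≤ (y : ℝ) ^ K + 1 := by
    push_cast
    have h3 : (0 : ℝ) ≤ (y : ℝ) ^ K := by positivity
    rw [Real.sqrt_le_left (by positivity)]
    nlinarith
  have e1 : |(T : ℝ) * Pi - X / R * Pi| ≤ 1 := by
    rw [← sub_mul, abs_mul, abs_of_nonneg hPi0]
    calc |(T : ℝ) - X / R| * Pi ≤ 1 * 1 := mul_le_mul hTb hPi1 hPi0 zero_le_one
      _ = 1 := one_mul 1
  obtain ⟨e2, e3⟩ := abs_le.1 e1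
  obtain ⟨s1, s2⟩ := abs_le.1 hSc
  obtain ⟨f1, f2⟩ := abs_le.1 hf'
  have e4 : ε * ((T : ℝ) * Pi) ≤ ε * (X / R * Pi) + ε * 1 := by
    rw [← mul_add]
    exact mul_le_mul_of_nonneg_left (by linarith) hε.le
  rw [abs_le]
  constructor <;> linarith

open Classical in
theorem law : LAW := by
  intro J hJ ε hε hε1
  obtain ⟨K, x0, hK, hfund⟩ := sys_fund J hJ ε hε
  refine ⟨K, x0, hK, ?_⟩
  intro α β w hI Q b hQ hQw y X hy d
  unfold Pool.Agent.W208.TL.dens
  by_cases hc : (∀ i, sm w y (d i) = d i) ∧ (∀ i j, i ≠ j → Nat.Coprime (d i) (d j))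
  · rw [if_pos hc]
    exact law_main hε hε1 (fun x y => hfund x y) hJ α β w hI Q b hQ hQw y X hy d hc.1 hc.2
  · rw [if_neg hc]
    have hemp : (Ioc 0 X).filter (fun m => m ≡ b [MOD Q] ∧
        ∀ i, sm w y (lf (α i) (β i) m) = d i) = ∅ := by
      rw [filter_eq_empty_iff]
      rintro m - ⟨-, hm⟩
      apply hc
      refine ⟨fun i => by rw [← hm i, sm_sm], fun i j hij => ?_⟩
      refine Nat.coprime_of_dvd fun l hl hdi hdj => ?_
      rw [← hm i] at hdi
      rw [← hm j] at hdj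
      obtain ⟨hP, h3⟩ := prime_dvd_sm hl hdi
      obtain ⟨-, h4⟩ := prime_dvd_sm hl hdj
      unfold lf at h3 h4
      rw [← Int.natCast_dvd] at h3 h4
      apply (hI.2 l hl (mem_PP.1 hP).1.1).2 i j hij
      have : (α i : ℤ) * β j - (α j : ℤ) * β i = (α i : ℤ) * ((α j : ℤ) * m + β j) -
          (α j : ℤ) * ((α i : ℤ) * m + β i) := by ring
      rw [this]
      exact dvd_sub (Dvd.dvd.mul_left h4 _) (Dvd.dvd.mul_left h3 _)
    rw [hemp]
    simp only [card_empty, Nat.cast_zero, mul_zero, sub_self, abs_zero, zero_add]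
    positivity

end Pool.Agent.W591.TL
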