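import Pool.Agent.W208.TL.Stm

/-! Basic facts on the `(w, y]`-parts. -/

set_option autoImplicit false

namespace Pool.Agent.W591.TL

open Finset Pool.Agent.W208.TL

theorem mem_PP {w y l : ℕ} : l ∈ PP w y ↔ (w < l ∧ l ≤ y) ∧ l.Prime := by
  unfold PP
  rw [mem_filter, mem_Ioc]

theorem sm_ne_zero (w y n : ℕ) : sm w y n ≠ 0 := by
  unfold sm
  exact prod_ne_zero_iff.2 fun l hl => pow_ne_zero _ (mem_PP.1 hl).2.ne_zero

theorem fac_sm (w y n l : ℕ) (hl : l ∈ PP w y) :
    (sm w y n).factorization l = n.factorization l := by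
  unfold sm
  rw [Nat.factorization_prod (fun q hq => pow_ne_zero _ (mem_PP.1 hq).2.ne_zero),
    Finsupp.finsetSum_apply, sum_eq_single l]
  · rw [(mem_PP.1 hl).2.factorization_pow, Finsupp.single_eq_same]
  · intro q hq hne
    rw [(mem_PP.1 hq).2.factorization_pow, Finsupp.single_eq_of_ne (Ne.symm hne)]
  · intro h
    exact absurd hl h

theorem sm_sm (w y n : ℕ) : sm w y (sm w y n) = sm w y n := by
  conv_lhs => unfold sm
  conv_rhs => unfold sm
  refine prod_congr rfl fun l hl => ?_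
  have := fac_sm w y n l hl
  unfold sm at this
  rw [this]

theorem sm_mul (w y a b : ℕ) (ha : a ≠ 0) (hb : b ≠ 0) :
    sm w y (a * b) = sm w y a * sm w y b := by
  unfold sm
  rw [← prod_mul_distrib]
  refine prod_congr rfl fun l _ => ?_
  rw [Nat.factorization_mul ha hb, Finsupp.add_apply, pow_add]

theorem prime_dvd_sm {w y n l : ℕ} (hl : l.Prime) (h : l ∣ sm w y n) : l ∈ PP w y ∧ l ∣ n := by
  unfold sm at h
  rw [hl.prime.dvd_finsetProd_iff] at h
  obtain ⟨q, hq, hd⟩ := h
  have h1 := hl.dvd_of_dvd_pow hd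
  have h2 : l = q := (Nat.prime_dvd_prime_iff_eq hl (mem_PP.1 hq).2).1 h1
  subst h2
  refine ⟨hq, ?_⟩
  by_contra hn
  rw [Nat.factorization_eq_zero_of_not_dvd hn, pow_zero] at hd
  exact hl.one_lt.ne' (Nat.dvd_one.1 hd)

theorem sm_dvd (w y n : ℕ) (hn : n ≠ 0) : sm w y n ∣ n := by
  rw [← Nat.factorization_le_iff_dvd (sm_ne_zero w y n) hn]
  intro l
  by_cases hl : l ∈ PP w y
  · rw [fac_sm w y n l hl]
  · have : (sm w y n).factorization l = 0 := by
      by_contra h
      have hp : l ∈ (sm w y n).primeFactors := by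
        rw [← Nat.support_factorization]
        exact Finsupp.mem_support_iff.2 h
      exact hl (prime_dvd_sm (Nat.prime_of_mem_primeFactors hp)
        (Nat.dvd_of_mem_primeFactors hp)).1
    rw [this]
    exact Nat.zero_le _

theorem sm_eq_one (w y n : ℕ) (hn : n ≠ 0) : sm w y n = 1 ↔ ∀ l ∈ PP w y, ¬ l ∣ n := by
  constructor
  · intro h l hl hd
    have h1 := fac_sm w y n l hl
    rw [h, Nat.factorization_one] at h1
    have h2 := ((mem_PP.1 hl).2.dvd_iff_one_le_factorization hn).1 hd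
    rw [← h1] at h2
    simp at h2
  · intro h
    unfold sm
    refine prod_eq_one fun l hl => ?_
    rw [Nat.factorization_eq_zero_of_not_dvd (h l hl), pow_zero]

theorem sm_zero (w y : ℕ) : sm w y 0 = 1 := by
  unfold sm
  simp

end Pool.Agent.W591.TL
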